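import Pool.Agent.H22.FOT.Defs

/-! Row CEX of the board `fot`: barycentres of weakly convergent laws on `X × I`. -/

open MeasureTheory unitInterval Set Filter Topology ProbabilityTheory

namespace Pool.FOT

namespace Cex

/-- Two probability measures on a compact metrizable space with the same integrals of continuous
functions agree. -/
lemma ext_cont {X : Type} [TopologicalSpace X] [CompactSpace X]
    [TopologicalSpace.MetrizableSpace X] [MeasurableSpace X] [BorelSpace X] (μ ν : Measure X)
    [IsProbabilityMeasure μ] [IsProbabilityMeasure ν]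
    (h : ∀ g : C(X, ℝ), ∫ x, g x ∂μ = ∫ x, g x ∂ν) : μ = ν :=
  ext_of_forall_integral_eq_of_IsFiniteMeasure fun f => h f.toContinuousMap

end Cex

theorem t_cex (hW : WLXStmt) : CEXStmt := by
  intro X _ _ _ _ _ m hm m1 hm1 hlim
  let _ := TopologicalSpace.metrizableSpaceMetric X
  have : SecondCountableTopology X := inferInstance
  obtain ⟨m0, hm0, h0⟩ := hW (X × I) m hm
  have hfst : m0.fst = m1 := by
    refine Cex.ext_cont _ _ fun g => ?_
    have h1 : Tendsto (fun n => ∫ x, g x ∂((m n).map Prod.fst)) (hyperfilter ℕ : Filter ℕ)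
        (𝓝 (∫ z, g z.1 ∂m0)) := by
      have := h0 (g.comp ⟨Prod.fst, continuous_fst⟩)
      simpa [integral_map measurable_fst.aemeasurable
        g.continuous.aestronglyMeasurable] using this
    have h2 := tendsto_nhds_unique h1 (hlim g)
    rw [← h2, Measure.fst, integral_map measurable_fst.aemeasurable
      g.continuous.aestronglyMeasurable]
  obtain ⟨κ, hκ, hdis⟩ : ∃ κ : Kernel X I, IsMarkovKernel κ ∧ m1 ⊗ₘ κ = m0 := by
    refine ⟨m0.condKernel, inferInstance, ?_⟩
    rw [← hfst]; exact m0.disintegrate m0.condKernel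
  have hcI : Continuous fun w : I => (w : ℝ) := continuous_subtype_val
  have hint : ∀ μ : Measure I, IsFiniteMeasure μ → Integrable (fun w : I => (w : ℝ)) μ := by
    intro μ _
    exact Integrable.of_bound hcI.aestronglyMeasurable 1 (Eventually.of_forall fun w => by
      rw [Real.norm_eq_abs, abs_of_nonneg w.2.1]; exact w.2.2)
  have hmeas : Measurable fun x => ∫ w : I, (w : ℝ) ∂(κ x) := by
    exact (StronglyMeasurable.integral_kernel hcI.stronglyMeasurable).measurable
  refine ⟨fun x => ∫ w : I, (w : ℝ) ∂(κ x), hmeas, fun x => ⟨?_, ?_⟩, ?_, ?_⟩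
  · exact integral_nonneg fun w => w.2.1
  · calc ∫ w : I, (w : ℝ) ∂(κ x) ≤ ∫ w : I, (1 : ℝ) ∂(κ x) :=
        integral_mono (hint _ inferInstance) (integrable_const _) fun w => w.2.2
      _ = 1 := by simp
  · intro g
    have hc : Continuous fun z : X × I => g z.1 * (z.2 : ℝ) :=
      (g.continuous.comp continuous_fst).mul (hcI.comp continuous_snd)
    have h1 := h0 ⟨_, hc⟩
    have hi : Integrable (fun z : X × I => g z.1 * (z.2 : ℝ)) (m1 ⊗ₘ κ) := by
      rw [hdis]
      exact (hc.integrable_of_hasCompactSupport (HasCompactSupport.of_compactSpace _))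
    have h2 : ∫ z, g z.1 * (z.2 : ℝ) ∂m0 = ∫ x, g x * ∫ w : I, (w : ℝ) ∂(κ x) ∂m1 := by
      rw [← hdis, Measure.integral_compProd hi]
      refine integral_congr_ae (Eventually.of_forall fun x => ?_)
      simp only
      rw [integral_const_mul]
    rw [← h2]
    exact h1
  · intro J hJ hconv c hev
    have hcJ : Continuous fun z : X × I => J (z.2 : ℝ) := hJ.comp (hcI.comp continuous_snd)
    have h1 := h0 ⟨_, hcJ⟩
    have h2 : ∫ z, J (z.2 : ℝ) ∂m0 ≤ c := le_of_tendsto h1 hev
    have hi : Integrable (fun z : X × I => J (z.2 : ℝ)) (m1 ⊗ₘ κ) := by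
      rw [hdis]
      exact (hcJ.integrable_of_hasCompactSupport (HasCompactSupport.of_compactSpace _))
    have h3 : ∫ z, J (z.2 : ℝ) ∂m0 = ∫ x, ∫ w : I, J (w : ℝ) ∂(κ x) ∂m1 := by
      rw [← hdis, Measure.integral_compProd hi]
    obtain ⟨C, hC⟩ : ∃ C, ∀ s ∈ Icc (0 : ℝ) 1, |J s| ≤ C :=
      (isCompact_Icc.exists_bound_of_continuousOn hJ.continuousOn)
    have hk : ∀ x, J (∫ w : I, (w : ℝ) ∂(κ x)) ≤
        ∫ w : I, J (w : ℝ) ∂(κ x) := fun x => by
      refine hconv.map_integral_le hJ.continuousOn isClosed_Icc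
        (Eventually.of_forall fun w => w.2) (hint _ inferInstance) ?_
      exact Integrable.of_bound (hJ.comp hcI).aestronglyMeasurable C
        (Eventually.of_forall fun w => hC _ w.2)
    refine le_trans ?_ (h3 ▸ h2)
    refine integral_mono ?_ ?_ hk
    · refine Integrable.of_bound (hJ.measurable.comp hmeas).aestronglyMeasurable C
        (Eventually.of_forall fun x => hC _ ⟨?_, ?_⟩)
      · exact integral_nonneg fun w => w.2.1
      · calc ∫ w : I, (w : ℝ) ∂(κ x) ≤ ∫ w : I, (1 : ℝ) ∂(κ x) :=
            integral_mono (hint _ inferInstance) (integrable_const _) fun w => w.2.2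
          _ = 1 := by simp
    · exact hi.integral_compProd
end Pool.FOT
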