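import Pool.Agent.H22.FOT.Defs

/-! Row ENC of the board `fot`: the encoding of a sequence of graphons in the Hilbert cube. -/

open MeasureTheory unitInterval Set Filter Topology

namespace Pool.FOT

namespace Enc

lemma integrable_bdd {Ω : Type} [MeasurableSpace Ω] (μ : Measure Ω) [IsFiniteMeasure μ]
    (f : Ω → ℝ) (hf : Measurable f) (C : ℝ) (hC : ∀ x, |f x| ≤ C) : Integrable f μ :=
  Integrable.of_bound hf.aestronglyMeasurable C (Eventually.of_forall fun x => hC x)

lemma exists_lim (c : ℕ → ℝ) (hc : ∀ n, c n ∈ Icc (-1 : ℝ) 1) :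
    ∃ L : ℝ, Tendsto c (hyperfilter ℕ : Filter ℕ) (𝓝 L) := by
  obtain ⟨L, _, hL⟩ := isCompact_Icc.ultrafilter_le_nhds ((hyperfilter ℕ).map c)
    (le_principal_iff.2 (by
      rw [Ultrafilter.coe_map]
      exact mem_map.2 (Eventually.of_forall fun n => hc n)))
  exact ⟨L, by rwa [Ultrafilter.coe_map] at hL⟩

end Enc

open Enc

theorem t_enc (hH : HILStmt) : ENCStmt := by
  intro W
  have key : ∀ n k : ℕ, ∃ (a b : ℕ → I → ℝ) (c : ℕ → ℝ), (∀ i, Measurable (a i)) ∧
      (∀ i, Measurable (b i)) ∧ (∀ i x, a i x ∈ Icc (0 : ℝ) 1) ∧ (∀ i x, b i x ∈ Icc (0 : ℝ) 1) ∧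
      (∀ i, c i ∈ Icc (-1 : ℝ) 1) ∧ (0 < k → CutLe (volume : Measure I)
        (fun x y => W n x y - ∑ i ∈ Finset.range (k ^ 2), c i * a i x * b i y) (1 / k)) := by
    intro n k
    rcases Nat.eq_zero_or_pos k with h | h
    · exact ⟨fun _ _ => 0, fun _ _ => 0, fun _ => 0, fun _ => measurable_const,
        fun _ => measurable_const, fun _ _ => ⟨le_rfl, zero_le_one⟩,
        fun _ _ => ⟨le_rfl, zero_le_one⟩, fun _ => ⟨by norm_num, by norm_num⟩,
        fun h' => absurd h (Nat.pos_iff_ne_zero.1 h')⟩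
    · obtain ⟨a, b, c, h1, h2, h3, h4, h5, h6⟩ := hH I volume (W n) (W n).measurable'
        (fun x y => abs_le.2 ⟨by linarith only [(W n).nonneg' x y], (W n).le_one' x y⟩) k h
      exact ⟨a, b, c, h1, h2, h3, h4, h5, fun _ => h6⟩
  choose a b c ha hb ha1 hb1 hc hcut using key
  have hlim : ∀ k i : ℕ, ∃ L : ℝ, Tendsto (fun n => c n k i) (hyperfilter ℕ : Filter ℕ) (𝓝 L) :=
    fun k i => exists_lim _ fun n => hc n k i
  choose L hL using hlim
  have hval : ∀ n (x : I) (j : ℕ × ℕ × Bool),
      (bif j.2.2 then b n j.1 j.2.1 x else a n j.1 j.2.1 x) ∈ Icc (0 : ℝ) 1 := by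
    rintro n x ⟨k, i, t⟩
    cases t
    · exact ha1 n k i x
    · exact hb1 n k i x
  refine ⟨fun n x j => ⟨bif j.2.2 then b n j.1 j.2.1 x else a n j.1 j.2.1 x, hval n x j⟩,
    fun k => ⟨fun z => ∑ i ∈ Finset.range (k ^ 2),
      L k i * (z.1 (k, i, false) : ℝ) * (z.2 (k, i, true) : ℝ), by fun_prop⟩, fun n => ?_, ?_⟩
  · refine measurable_pi_iff.2 ?_
    rintro ⟨k, i, t⟩
    cases t
    · exact (ha n k i).subtype_mk
    · exact (hb n k i).subtype_mk
  · intro k hk
    have hk' : (0 : ℝ) < 1 / k := by positivity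
    have ht : Tendsto (fun n => ∑ i ∈ Finset.range (k ^ 2), |c n k i - L k i|)
        (hyperfilter ℕ : Filter ℕ) (𝓝 0) := by
      have : Tendsto (fun n => ∑ i ∈ Finset.range (k ^ 2), |c n k i - L k i|)
          (hyperfilter ℕ : Filter ℕ) (𝓝 (∑ i ∈ Finset.range (k ^ 2), |L k i - L k i|)) :=
        tendsto_finsetSum _ fun i _ => ((hL k i).sub_const _).abs
      simpa using this
    filter_upwards [ht.eventually (ge_mem_nhds hk')] with n hn
    intro α β hα hβ hα1 hβ1
    have hh := hcut n k hk α β hα hβ hα1 hβ1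
    have hαm : Measurable fun z : I × I => α z.1 := hα.comp measurable_fst
    have hβm : Measurable fun z : I × I => β z.2 := hβ.comp measurable_snd
    have ham : ∀ i, Measurable fun z : I × I => a n k i z.1 := fun i => (ha n k i).comp measurable_fst
    have hbm : ∀ i, Measurable fun z : I × I => b n k i z.2 := fun i => (hb n k i).comp measurable_snd
    have habs : ∀ {s : ℝ}, s ∈ Icc (0 : ℝ) 1 → |s| ≤ 1 := fun hs =>
      abs_le.2 ⟨by linarith only [hs.1], hs.2⟩
    have hprod : ∀ {s t : ℝ}, |s| ≤ 1 → |t| ≤ 1 → |s * t| ≤ 1 := fun hs ht => by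
      rw [abs_mul]; exact mul_le_one₀ hs (abs_nonneg _) ht
    -- the two parts
    set f1 : I × I → ℝ := fun z => (W n z.1 z.2 -
      ∑ i ∈ Finset.range (k ^ 2), c n k i * a n k i z.1 * b n k i z.2) * α z.1 * β z.2 with hf1
    set f2 : ℕ → I × I → ℝ := fun i z =>
      (c n k i - L k i) * (a n k i z.1 * b n k i z.2 * (α z.1 * β z.2)) with hf2
    have hi2 : ∀ i, Integrable (f2 i) (volume.prod volume : Measure (I × I)) := fun i => by
      refine Integrable.const_mul (integrable_bdd _ _
        (((ham i).mul (hbm i)).mul (hαm.mul hβm)) 1 fun z => ?_) _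
      exact hprod (hprod (habs (ha1 n k i _)) (habs (hb1 n k i _)))
        (hprod (habs (hα1 _)) (habs (hβ1 _)))
    have hi1 : Integrable f1 (volume.prod volume : Measure (I × I)) := by
      refine integrable_bdd _ _ ?_ (1 + ∑ i ∈ Finset.range (k ^ 2), 1) fun z => ?_
      · exact (((W n).measurable'.sub (Finset.measurable_sum _ fun i _ =>
          ((ham i).const_mul _).mul (hbm i))).mul hαm).mul hβm
      · have hx : |W n z.1 z.2 - ∑ i ∈ Finset.range (k ^ 2), c n k i * a n k i z.1 * b n k i z.2| ≤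
            1 + ∑ i ∈ Finset.range (k ^ 2), (1 : ℝ) := by
          refine (abs_sub _ _).trans (add_le_add (abs_le.2
            ⟨by linarith only [(W n).nonneg' z.1 z.2], (W n).le_one' _ _⟩) ?_)
          refine (Finset.abs_sum_le_sum_abs _ _).trans (Finset.sum_le_sum fun i _ => ?_)
          exact hprod (hprod (abs_le.2 (hc n k i)) (habs (ha1 n k i _))) (habs (hb1 n k i _))
        have hpos : (0 : ℝ) ≤ 1 + ∑ i ∈ Finset.range (k ^ 2), (1 : ℝ) :=
          le_trans (abs_nonneg _) hx
        rw [hf1]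
        simp only
        rw [mul_assoc, abs_mul]
        exact (mul_le_of_le_one_right (abs_nonneg _)
          (hprod (habs (hα1 _)) (habs (hβ1 _)))).trans hx
    have heq : ∀ z : I × I, (W n z.1 z.2 - (∑ i ∈ Finset.range (k ^ 2),
        L k i * a n k i z.1 * b n k i z.2)) * α z.1 * β z.2 =
        f1 z + ∑ i ∈ Finset.range (k ^ 2), f2 i z := by
      intro z
      have : ∑ i ∈ Finset.range (k ^ 2), f2 i z =
          (∑ i ∈ Finset.range (k ^ 2), c n k i * a n k i z.1 * b n k i z.2 -
            ∑ i ∈ Finset.range (k ^ 2), L k i * a n k i z.1 * b n k i z.2) * α z.1 * β z.2 := by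
        rw [← Finset.sum_sub_distrib, Finset.sum_mul, Finset.sum_mul]
        exact Finset.sum_congr rfl fun i _ => by rw [hf2]; ring
      rw [this, hf1]
      ring
    show |∫ z : I × I, (W n z.1 z.2 - (∑ i ∈ Finset.range (k ^ 2),
        L k i * a n k i z.1 * b n k i z.2)) * α z.1 * β z.2 ∂(volume.prod volume)| ≤ 2 / k
    rw [integral_congr_ae (Eventually.of_forall heq), integral_add hi1
      (integrable_finsetSum _ fun i _ => hi2 i), integral_finsetSum _ fun i _ => hi2 i]
    have hs : |∑ i ∈ Finset.range (k ^ 2), ∫ z, f2 i z ∂(volume.prod volume)| ≤ 1 / k := by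
      refine (Finset.abs_sum_le_sum_abs _ _).trans (le_trans (Finset.sum_le_sum fun i _ => ?_) hn)
      have : |∫ z, f2 i z ∂(volume.prod volume : Measure (I × I))| ≤
          ∫ z : I × I, |c n k i - L k i| ∂(volume.prod volume) := by
        refine (abs_integral_le_integral_abs).trans (integral_mono (hi2 i).abs
          (integrable_const _) fun z => ?_)
        rw [hf2]
        simp only
        rw [abs_mul]
        exact mul_le_of_le_one_right (abs_nonneg _)
          (hprod (hprod (habs (ha1 n k i _)) (habs (hb1 n k i _)))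
            (hprod (habs (hα1 _)) (habs (hβ1 _))))
      simpa using this
    have h2 : (2 : ℝ) / k = 1 / k + 1 / k := by ring
    rw [h2]
    exact (abs_add_le _ _).trans (add_le_add hh hs)

end Pool.FOT
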