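import Pool.Agent.H22.FOT.Defs

/-! Row PTW of the board `fot`: pointwise comparison of `W` with `repl W q B`. -/

open MeasureTheory unitInterval Set Filter Topology

namespace Pool.FOT

open Pool.Agent.H99.LowerTail

namespace Ptw

lemma abs_prod_sub_pow_le {ι : Type} (s : Finset ι) (a : ι → ℝ) (q : ℝ)
    (ha0 : ∀ i, 0 ≤ a i) (ha1 : ∀ i, a i ≤ 1) (hq0 : 0 ≤ q) (hq1 : q ≤ 1) :
    |∏ i ∈ s, a i - q ^ s.card| ≤ ∑ i ∈ s, |a i - q| := by
  classical
  induction s using Finset.induction_on with
  | empty => simp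
  | insert j s hj ih =>
    rw [Finset.prod_insert hj, Finset.sum_insert hj, Finset.card_insert_of_notMem hj, pow_succ]
    have h0 : 0 ≤ ∏ i ∈ s, a i := Finset.prod_nonneg fun i _ => ha0 i
    have h1 : ∏ i ∈ s, a i ≤ 1 := Finset.prod_le_one (fun i _ => ha0 i) (fun i _ => ha1 i)
    have e : a j * ∏ i ∈ s, a i - q ^ s.card * q =
        (a j - q) * ∏ i ∈ s, a i + q * (∏ i ∈ s, a i - q ^ s.card) := by ring
    rw [e]
    refine (abs_add_le _ _).trans (add_le_add ?_ ?_)
    · rw [abs_mul, abs_of_nonneg h0]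
      exact mul_le_of_le_one_right (abs_nonneg _) h1
    · rw [abs_mul, abs_of_nonneg hq0]
      exact (mul_le_of_le_one_left (abs_nonneg _) hq1).trans ih

lemma card_filter_mem {V : Type} [Fintype V] [DecidableEq V] (H : SimpleGraph V) (v : V) :
    ((edges H).filter (fun e => v ∈ e)).card = dg H v := by
  classical
  unfold edges dg
  rw [← SimpleGraph.card_incidenceFinset_eq_degree, SimpleGraph.incidenceFinset_eq_filter]

lemma edgeVal_repl {V : Type} (W : Graphon) (q : ℝ) (hq : q ∈ Icc (0 : ℝ) 1) (B : Set I)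
    (hB : MeasurableSet B) (x : V → I) (e : Sym2 V) :
    ((∃ v ∈ e, x v ∈ B) → edgeVal (repl W q hq B hB) x e = q) ∧
    ((∀ v ∈ e, x v ∉ B) → edgeVal (repl W q hq B hB) x e = edgeVal W x e) := by
  induction e using Sym2.ind with
  | _ i j =>
    constructor
    · rintro ⟨v, hv, hvB⟩
      have h : x i ∈ B ∨ x j ∈ B := by
        rcases Sym2.mem_iff.1 hv with rfl | rfl
        · exact Or.inl hvB
        · exact Or.inr hvB
      exact if_pos h
    · intro h
      have h' : ¬ (x i ∈ B ∨ x j ∈ B) := by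
        rintro (h1 | h1)
        · exact h i (Sym2.mem_mk_left i j) h1
        · exact h j (Sym2.mem_mk_right i j) h1
      exact if_neg h'

end Ptw

open Ptw

theorem t_ptw : PTWStmt := by
  intro V _ _ H W q hq B hB x
  classical
  set E := edges H with hE
  have hw0 : ∀ e, 0 ≤ edgeVal W x e := fun e => edgeVal_nonneg W x e
  have hw1 : ∀ e, edgeVal W x e ≤ 1 := fun e => edgeVal_le_one W x e
  have hind : ∀ v, B.indicator (fun _ => (1 : ℝ)) (x v) = if x v ∈ B then 1 else 0 := fun v => by
    simp only [Set.indicator_apply]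
  simp only [hind]
  have hne : numEdges H = E.card := numEdges_eq H
  by_cases h0 : ∀ v, x v ∉ B
  · have h1 : ∏ e ∈ E, edgeVal (repl W q hq B hB) x e = ∏ e ∈ E, edgeVal W x e :=
      Finset.prod_congr rfl fun e _ => (edgeVal_repl W q hq B hB x e).2 fun v _ => h0 v
    simp only [h0, if_false, zero_mul, mul_zero, Finset.sum_const_zero, add_zero, sub_zero]
    exact h1.le
  push Not at h0
  obtain ⟨v0, hv0⟩ := h0
  by_cases h1 : ∀ v, v ≠ v0 → x v ∉ B
  · -- exactly one vertex in `B`
    have hiff : ∀ v, (x v ∈ B) ↔ v = v0 := fun v => by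
      constructor
      · intro h; by_contra hne; exact h1 v hne h
      · rintro rfl; exact hv0
    simp only [hiff]
    have s1 : ∑ v : V, (if v = v0 then (1 : ℝ) else 0) *
          (q ^ (numEdges H - dg H v) * ∏ e ∈ E.filter (fun e => v ∈ e), edgeVal W x e
            - q ^ numEdges H) =
        q ^ (numEdges H - dg H v0) * ∏ e ∈ E.filter (fun e => v0 ∈ e), edgeVal W x e
            - q ^ numEdges H := by
      simp only [ite_mul, one_mul, zero_mul, Finset.sum_ite_eq', Finset.mem_univ, if_true]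
    have s2 : ∑ v : V, ∑ e ∈ E.filter (fun e => v ∉ e),
          (if v = v0 then (1 : ℝ) else 0) * |edgeVal W x e - q| =
        ∑ e ∈ E.filter (fun e => v0 ∉ e), |edgeVal W x e - q| := by
      rw [Finset.sum_eq_single v0]
      · simp
      · intro v _ hv; simp [hv]
      · simp
    have s3 : ∑ v : V, ∑ w ∈ Finset.univ.filter (fun w => w ≠ v),
          (if v = v0 then (1 : ℝ) else 0) * (if w = v0 then (1 : ℝ) else 0) = 0 := by
      refine Finset.sum_eq_zero fun v _ => Finset.sum_eq_zero fun w hw => ?_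
      rw [Finset.mem_filter] at hw
      by_cases hv : v = v0
      · have : w ≠ v0 := fun h => hw.2 (h.trans hv.symm)
        simp [this]
      · simp [hv]
    rw [s1, s2, s3]
    have hd : (E.filter (fun e => v0 ∈ e)).card = dg H v0 := card_filter_mem H v0
    have hsplit : (E.filter (fun e => v0 ∈ e)).card + (E.filter (fun e => v0 ∉ e)).card = E.card :=
      Finset.card_filter_add_card_filter_not _
    have hout : (E.filter (fun e => v0 ∉ e)).card = numEdges H - dg H v0 := by
      rw [hne, ← hd]; omega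
    have hprod : (∏ e ∈ E.filter (fun e => v0 ∈ e), edgeVal W x e) *
        (∏ e ∈ E.filter (fun e => v0 ∉ e), edgeVal W x e) = ∏ e ∈ E, edgeVal W x e :=
      Finset.prod_filter_mul_prod_filter_not E (fun e => v0 ∈ e) _
    have hprod' : (∏ e ∈ E.filter (fun e => v0 ∈ e), edgeVal (repl W q hq B hB) x e) *
        (∏ e ∈ E.filter (fun e => v0 ∉ e), edgeVal (repl W q hq B hB) x e) =
        ∏ e ∈ E, edgeVal (repl W q hq B hB) x e :=
      Finset.prod_filter_mul_prod_filter_not E (fun e => v0 ∈ e) _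
    have hin' : ∏ e ∈ E.filter (fun e => v0 ∈ e), edgeVal (repl W q hq B hB) x e =
        q ^ dg H v0 := by
      rw [← hd, ← Finset.prod_const]
      refine Finset.prod_congr rfl fun e he => ?_
      exact (edgeVal_repl W q hq B hB x e).1 ⟨v0, (Finset.mem_filter.1 he).2, hv0⟩
    have hout' : ∏ e ∈ E.filter (fun e => v0 ∉ e), edgeVal (repl W q hq B hB) x e =
        ∏ e ∈ E.filter (fun e => v0 ∉ e), edgeVal W x e := by
      refine Finset.prod_congr rfl fun e he => (edgeVal_repl W q hq B hB x e).2 fun v hv hvB => ?_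
      have := (hiff v).1 hvB
      exact (Finset.mem_filter.1 he).2 (this ▸ hv)
    have hb := abs_prod_sub_pow_le (E.filter (fun e => v0 ∉ e)) (fun e => edgeVal W x e) q hw0 hw1
      hq.1 hq.2
    rw [hout] at hb
    have hle : dg H v0 ≤ numEdges H := by rw [hne, ← hd]; omega
    have hpow : q ^ numEdges H = q ^ dg H v0 * q ^ (numEdges H - dg H v0) := by
      rw [← pow_add]; congr 1; omega
    rw [← hprod, ← hprod', hin', hout', hpow]
    set Pi := ∏ e ∈ E.filter (fun e => v0 ∈ e), edgeVal W x e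
    set Po := ∏ e ∈ E.filter (fun e => v0 ∉ e), edgeVal W x e
    set Sg := ∑ e ∈ E.filter (fun e => v0 ∉ e), |edgeVal W x e - q|
    set a := q ^ dg H v0
    set b := q ^ (numEdges H - dg H v0)
    have hPi0 : 0 ≤ Pi := Finset.prod_nonneg fun e _ => hw0 e
    have hPi1 : Pi ≤ 1 := Finset.prod_le_one (fun e _ => hw0 e) (fun e _ => hw1 e)
    have ha0 : 0 ≤ a := pow_nonneg hq.1 _
    have ha1 : a ≤ 1 := pow_le_one₀ hq.1 hq.2
    have hab : |Pi - a| ≤ 1 := abs_le.2 ⟨by linarith only [hPi0, ha1], by linarith only [hPi1, ha0]⟩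
    have hkey : -Sg ≤ (Pi - a) * (Po - b) := by
      have h := abs_mul (Pi - a) (Po - b)
      have h2 : |Pi - a| * |Po - b| ≤ 1 * Sg :=
        mul_le_mul hab hb (abs_nonneg _) zero_le_one
      have h3 := neg_abs_le ((Pi - a) * (Po - b))
      rw [h] at h3
      linarith only [h2, h3]
    nlinarith only [hkey]
  · -- two vertices in `B`
    push Not at h1
    obtain ⟨v1, hv10, hv1⟩ := h1
    have hR : 0 ≤ ∏ e ∈ E, edgeVal W x e := Finset.prod_nonneg fun e _ => hw0 e
    have hL : ∏ e ∈ E, edgeVal (repl W q hq B hB) x e ≤ 1 :=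
      Finset.prod_le_one (fun e _ => edgeVal_nonneg _ x e) (fun e _ => edgeVal_le_one _ x e)
    have hs1 : ∑ v : V, (if x v ∈ B then (1 : ℝ) else 0) *
          (q ^ (numEdges H - dg H v) * ∏ e ∈ E.filter (fun e => v ∈ e), edgeVal W x e
            - q ^ numEdges H) ≤ Fintype.card V := by
      have : (Fintype.card V : ℝ) = ∑ v : V, (1 : ℝ) := by simp
      rw [this]
      refine Finset.sum_le_sum fun v _ => ?_
      have h1 : q ^ (numEdges H - dg H v) * ∏ e ∈ E.filter (fun e => v ∈ e), edgeVal W x e ≤ 1 :=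
        mul_le_one₀ (pow_le_one₀ hq.1 hq.2) (Finset.prod_nonneg fun e _ => hw0 e)
          (Finset.prod_le_one (fun e _ => hw0 e) (fun e _ => hw1 e))
      have h2 : 0 ≤ q ^ numEdges H := pow_nonneg hq.1 _
      split_ifs
      · linarith only [h1, h2]
      · linarith only
    have hs2 : 0 ≤ ∑ v : V, ∑ e ∈ E.filter (fun e => v ∉ e),
          (if x v ∈ B then (1 : ℝ) else 0) * |edgeVal W x e - q| := by
      refine Finset.sum_nonneg fun v _ => Finset.sum_nonneg fun e _ => mul_nonneg ?_ (abs_nonneg _)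
      split_ifs <;> norm_num
    have hs3 : 2 ≤ ∑ v : V, ∑ w ∈ Finset.univ.filter (fun w => w ≠ v),
          (if x v ∈ B then (1 : ℝ) else 0) * (if x w ∈ B then (1 : ℝ) else 0) := by
      have hnn : ∀ v w : V, 0 ≤ (if x v ∈ B then (1 : ℝ) else 0) * (if x w ∈ B then (1 : ℝ) else 0) :=
        fun v w => mul_nonneg (by split_ifs <;> norm_num) (by split_ifs <;> norm_num)
      have hone : ∀ v w : V, w ≠ v → x v ∈ B → x w ∈ B →
          1 ≤ ∑ w ∈ Finset.univ.filter (fun w => w ≠ v),
          (if x v ∈ B then (1 : ℝ) else 0) * (if x w ∈ B then (1 : ℝ) else 0) := by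
        intro v w hwv hv hw
        have := Finset.single_le_sum (f := fun w => (if x v ∈ B then (1 : ℝ) else 0) *
          (if x w ∈ B then (1 : ℝ) else 0)) (s := Finset.univ.filter (fun w => w ≠ v))
          (fun w _ => hnn v w) (a := w) (by simp [hwv])
        simpa [hv, hw] using this
      have hsub : ∑ v ∈ ({v0, v1} : Finset V), ∑ w ∈ Finset.univ.filter (fun w => w ≠ v),
          (if x v ∈ B then (1 : ℝ) else 0) * (if x w ∈ B then (1 : ℝ) else 0) ≤
          ∑ v : V, ∑ w ∈ Finset.univ.filter (fun w => w ≠ v),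
          (if x v ∈ B then (1 : ℝ) else 0) * (if x w ∈ B then (1 : ℝ) else 0) :=
        Finset.sum_le_sum_of_subset_of_nonneg (Finset.subset_univ _)
          fun v _ _ => Finset.sum_nonneg fun w _ => hnn v w
      rw [Finset.sum_pair hv10.symm] at hsub
      have g1 := hone v0 v1 hv10 hv0 hv1
      have g2 := hone v1 v0 hv10.symm hv1 hv0
      linarith only [hsub, g1, g2]
    have hc : (0 : ℝ) ≤ Fintype.card V := Nat.cast_nonneg _
    nlinarith only [hR, hL, hs1, hs2, hs3, hc]

end Pool.FOT
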