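import Pool.Agent.H22.FOT.Defs

/-! Row GIR of the board `fot`: if the girth is odd, a smallest nonempty even set of edges is odd. -/

open MeasureTheory unitInterval Set Filter Topology

namespace Pool.FOT

namespace Gir

variable {V : Type}

open Classical in
lemma mem_evens [Fintype V] (H : SimpleGraph V) (A : Finset (Sym2 V)) : A ∈ evens H ↔
    (A ⊆ edges H ∧ ∀ v : V, Even (A.filter fun e => v ∈ e).card) := by
  unfold evens
  rw [Finset.mem_filter, Finset.mem_powerset]

open Classical in
/-- A nonempty set of edges in which every vertex has even degree contains a cycle. -/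
lemma not_acyclic (A : Finset (Sym2 V)) [Finite V] (hd : ∀ e ∈ A, ¬ e.IsDiag) (hne : A.Nonempty)
    (hev : ∀ v : V, Even (A.filter fun e => v ∈ e).card) :
    ¬ (SimpleGraph.fromEdgeSet (A : Set (Sym2 V))).IsAcyclic := by
  intro hac
  set G := SimpleGraph.fromEdgeSet (A : Set (Sym2 V)) with hG
  obtain ⟨e, he⟩ := hne
  induction e using Sym2.ind with
  | _ a b =>
    have hab : a ≠ b := fun h => hd _ he (by simp [h])
    have hadj : G.Adj a b := by
      rw [hG, SimpleGraph.fromEdgeSet_adj]
      exact ⟨he, hab⟩
    have : Nonempty V := ⟨a⟩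
    obtain ⟨u, v, p, hp, hmax⟩ := SimpleGraph.Walk.exists_isPath_forall_isPath_length_le_length G
    have hnil : ¬ p.Nil := by
      intro hn
      have h1 := hmax a b (SimpleGraph.Walk.cons hadj SimpleGraph.Walk.nil)
        (by simp [hab])
      have h2 : p.length = 0 := SimpleGraph.Walk.length_eq_zero_iff.2 hn
      simp [h2] at h1
    have hone : (A.filter fun e => u ∈ e) = {s(u, p.snd)} := by
      ext e
      rw [Finset.mem_filter, Finset.mem_singleton]
      constructor
      · rintro ⟨heA, hue⟩
        obtain ⟨w, rfl⟩ := Sym2.mem_iff_exists.1 hue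
        have huw : u ≠ w := fun h => hd _ heA (by simp [h])
        have hadj' : G.Adj u w := by
          rw [hG, SimpleGraph.fromEdgeSet_adj]
          exact ⟨heA, huw⟩
        have hsup : w ∈ p.support := by
          by_contra hw
          have hp' : (p.cons hadj'.symm).IsPath := hp.cons hw
          have := hmax _ _ _ hp'
          rw [SimpleGraph.Walk.length_cons] at this
          omega
        rw [hac.eq_snd_of_adj_start hp hadj' hsup]
      · rintro rfl
        have h := p.adj_snd hnil
        exact ⟨((SimpleGraph.fromEdgeSet_adj _).1 h).1, Sym2.mem_mk_left _ _⟩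
    have := hev u
    rw [hone] at this
    simp at this

end Gir

open Gir

theorem t_gir : GIRStmt := by
  intro V _ H hodd
  classical
  have hnac : ¬ H.IsAcyclic := fun h => by
    rw [h.girth_eq_zero] at hodd
    simp at hodd
  obtain ⟨a, w, hw, hlen⟩ := SimpleGraph.exists_girth_eq_length.2 hnac
  have hcard : w.edges.toFinset.card = H.girth := by
    rw [List.toFinset_card_of_nodup hw.isTrail.edges_nodup, SimpleGraph.Walk.length_edges, hlen]
  refine ⟨w.edges.toFinset, ?_, by rw [hcard]; exact hodd, ?_⟩
  · rw [mem_evens]
    refine ⟨fun e he => ?_, fun v => ?_⟩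
    · rw [List.mem_toFinset] at he
      unfold edges
      rw [SimpleGraph.mem_edgeFinset]
      exact w.edges_subset_edgeSet he
    · have h := (hw.isTrail.even_countP_edges_iff v).2 (fun h => absurd rfl h)
      have h2 : (w.edges.toFinset.filter fun e => v ∈ e).card = w.edges.countP fun e => v ∈ e := by
        rw [List.countP_eq_length_filter,
          ← List.toFinset_card_of_nodup (hw.isTrail.edges_nodup.filter _)]
        congr 1
        ext e
        simp
      rw [h2]
      exact h
  · intro A' hA' hne
    rw [hcard]
    rw [mem_evens] at hA'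
    have hsub : ∀ e ∈ A', e ∈ H.edgeSet := fun e he => by
      have := hA'.1 he
      unfold edges at this
      rwa [SimpleGraph.mem_edgeFinset] at this
    have hd : ∀ e ∈ A', ¬ e.IsDiag := fun e he => H.not_isDiag_of_mem_edgeSet (hsub e he)
    have hn := not_acyclic A' hd hne hA'.2
    obtain ⟨b, c, hc, _⟩ := SimpleGraph.exists_girth_eq_length.2 hn
    have hle : SimpleGraph.fromEdgeSet (A' : Set (Sym2 V)) ≤ H := by
      intro x y hxy
      rw [SimpleGraph.fromEdgeSet_adj] at hxy
      exact hsub _ hxy.1
    have hc' : (c.mapLe hle).IsCycle := hc.mapLe hle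
    have h1 := SimpleGraph.girth_le_length hc'
    rw [SimpleGraph.Walk.length_mapLe] at h1
    have h2 : c.length = c.edges.toFinset.card := by
      rw [List.toFinset_card_of_nodup hc.isTrail.edges_nodup, SimpleGraph.Walk.length_edges]
    rw [h2] at h1
    refine h1.trans (Finset.card_le_card fun e he => ?_)
    rw [List.mem_toFinset] at he
    have := c.edges_subset_edgeSet he
    rw [SimpleGraph.edgeSet_fromEdgeSet] at this
    exact this.1

end Pool.FOT
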